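import Pool.Agent.NTW.StmtsD

/-!
# Row PIG of the squad NTW (pigeonhole modulo the group)
-/

set_option autoImplicit false

open Matrix Filter Topology

namespace Pool.Agent.NTW.H34

open Pool.Agent.PFS Pool.Agent.PFJ Pool.Agent.NTS

variable {n K : ℕ}

/-- two tuples close to a given one are near each other -/
theorem tn_near {C : Set (V n)} (hC : PCone C) {ε : ℝ} (hε : 0 < ε) {w : Fin K → V n}
    (hw : ∑ m, w m ∈ C) : ∃ U ∈ 𝓝 w, ∀ w1 ∈ U, ∀ w2 ∈ U, TN C ε w1 w2 := by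
  have hop1 : ∀ i : Fin K, ∀ᶠ q : (Fin K → V n) × (Fin K → V n) in 𝓝 (w, w),
      ε • (∑ m, q.1 m) - (q.1 i - q.2 i) ∈ C ∧ ε • (∑ m, q.1 m) + (q.1 i - q.2 i) ∈ C ∧
      ε • (∑ m, q.2 m) - (q.1 i - q.2 i) ∈ C ∧ ε • (∑ m, q.2 m) + (q.1 i - q.2 i) ∈ C := by
    intro i
    have c1 : Continuous (fun q : (Fin K → V n) × (Fin K → V n) =>
        ε • (∑ m, q.1 m) - (q.1 i - q.2 i)) := by fun_prop
    have c2 : Continuous (fun q : (Fin K → V n) × (Fin K → V n) =>
        ε • (∑ m, q.1 m) + (q.1 i - q.2 i)) := by fun_prop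
    have c3 : Continuous (fun q : (Fin K → V n) × (Fin K → V n) =>
        ε • (∑ m, q.2 m) - (q.1 i - q.2 i)) := by fun_prop
    have c4 : Continuous (fun q : (Fin K → V n) × (Fin K → V n) =>
        ε • (∑ m, q.2 m) + (q.1 i - q.2 i)) := by fun_prop
    have hm : ε • (∑ m, w m) ∈ C := hC.smul _ hw ε hε
    have m1 : ε • (∑ m, w m) - (w i - w i) ∈ C := by rwa [sub_self, sub_zero]
    have m2 : ε • (∑ m, w m) + (w i - w i) ∈ C := by rwa [sub_self, add_zero]
    have e1 := (c1.tendsto (w, w)).eventually (hC.isOpen.mem_nhds m1)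
    have e2 := (c2.tendsto (w, w)).eventually (hC.isOpen.mem_nhds m2)
    have e3 := (c3.tendsto (w, w)).eventually (hC.isOpen.mem_nhds m1)
    have e4 := (c4.tendsto (w, w)).eventually (hC.isOpen.mem_nhds m2)
    filter_upwards [e1, e2, e3, e4] with q q1 q2 q3 q4
    exact ⟨q1, q2, q3, q4⟩
  have hop := eventually_all.mpr hop1
  rw [nhds_prod_eq] at hop
  obtain ⟨U1, hU1, U2, hU2, hU⟩ := mem_prod_iff.mp hop
  refine ⟨U1 ∩ U2, inter_mem hU1 hU2, ?_⟩
  intro w1 h1 w2 h2 i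
  have hh := hU (show (w1, w2) ∈ U1 ×ˢ U2 from ⟨h1.1, h2.2⟩)
  obtain ⟨q1, q2, q3, q4⟩ := hh i
  exact ⟨subset_closure q1, subset_closure q2, subset_closure q3, subset_closure q4⟩

/-- **Row PIG** -/
theorem pig (hTBX : TbxStmt) (hTCL : TclStmt) : PigStmt := by
  classical
  intro n C Γ K c τ hD ε hε
  have hCC : CC C Γ := hD.toCC
  obtain ⟨K0, hK0, hK0C, hK0c⟩ := hCC.cocompact
  let S : Set (Fin K → V n) := {w | TT C Γ c w ∧ ∑ m, w m ∈ K0}
  have hSseq : IsSeqCompact S := by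
    intro x hx
    obtain ⟨p, hp, φ, hφ, hlim⟩ := hK0.tendsto_subseq (fun m => (hx m).2)
    have hcard : 2 ≤ Fintype.card (Fin K) := by
      rw [Fintype.card_fin]
      have := hD.three
      omega
    obtain ⟨ψ, w, hψ, hw, hsum, hpes⟩ := H37.lpsF n C Γ hCC (Fin K) hcard (fun m => x (φ m)) p
      (fun m => (hx (φ m)).1.pes) (hK0C hp) hlim
    have htt : TT C Γ c w := (hTCL n C Γ K c τ hD (fun m => x (φ (ψ m))) w
      (fun m => (hx (φ (ψ m))).1) hw hpes).1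
    refine ⟨w, ⟨htt, ?_⟩, φ ∘ ψ, hφ.comp hψ, ?_⟩
    · rw [hsum]; exact hp
    · exact tendsto_pi_nhds.mpr hw
  have hSc : IsCompact S := hSseq.isCompact
  have hnear : ∀ w ∈ S, ∃ U ∈ 𝓝 w, ∀ w1 ∈ U, ∀ w2 ∈ U, TN C ε w1 w2 := fun w hw =>
    tn_near hCC.toPCone hε hw.1.pes.1.sum_mem
  choose! U hU hUn using hnear
  obtain ⟨T, hTS, hcov⟩ := hSc.elim_nhds_subcover U hU
  refine ⟨T.card, ?_⟩
  intro W hW
  have hg : ∀ m, ∃ g ∈ Γ, ∃ t : ℝ, 0 < t ∧ t • act g (∑ i, W m i) ∈ K0 := by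
    intro m
    refine hK0c _ (hW m).pes.1.sum_mem ?_
    have := (H60.elm n C Γ hCC (Fin K) (W m) (hW m).pes).2.2.2.1 (fun _ => 1) (fun _ => one_pos)
    simpa using this
  choose g hgΓ t ht hgK using hg
  have hmem : ∀ m, (fun i => t m • act (g m) (W m i)) ∈ S := by
    intro m
    refine ⟨(hTBX n C Γ K c τ hD (W m) (hW m)).2.2.1 (g m) (hgΓ m) (t m) (ht m), ?_⟩
    have e : ∑ i, t m • act (g m) (W m i) = t m • act (g m) (∑ i, W m i) := by
      rw [CC.act_sum, Finset.smul_sum]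
    rw [e]
    exact hgK m
  have hch : ∀ m, ∃ y ∈ T, (fun i => t m • act (g m) (W m i)) ∈ U y := by
    intro m
    have := hcov (hmem m)
    simpa using this
  choose y hyT hyU using hch
  have hlt : T.card < (Finset.univ : Finset (Fin (T.card + 1))).card := by
    rw [Finset.card_univ, Fintype.card_fin]
    exact Nat.lt_succ_self _
  obtain ⟨m, -, m', -, hne, heq⟩ := Finset.exists_ne_map_eq_of_card_lt_of_maps_to hlt
    (f := y) (fun m _ => hyT m)
  refine ⟨m, m', hne, (g m)⁻¹ * g m', Γ.mul_mem (Γ.inv_mem (hgΓ m)) (hgΓ m'), (t m)⁻¹ * t m',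
    mul_pos (inv_pos.mpr (ht m)) (ht m'), ?_⟩
  have htn : TN C ε (fun i => t m • act (g m) (W m i)) (fun i => t m' • act (g m') (W m' i)) :=
    hUn (y m) (hTS _ (hyT m)) _ (hyU m) _ (by rw [heq]; exact hyU m')
  have hact : ∀ x : V n, t m • act (g m) (((t m)⁻¹ * t m') • act ((g m)⁻¹ * g m') x) =
      t m' • act (g m') x := by
    intro x
    rw [CC.act_smul, CC.act_mul, CC.act_act_inv, smul_smul, ← mul_assoc,
      mul_inv_cancel₀ (ht m).ne', one_mul]
  intro i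
  obtain ⟨q1, q2, q3, q4⟩ := htn i
  have e0 : ∀ (a b d : V n), t m • act (g m) (ε • a - (b - d)) =
      ε • (t m • act (g m) a) - (t m • act (g m) b - t m • act (g m) d) := by
    intro a b d
    rw [CC.act_sub, CC.act_sub, CC.act_smul, smul_sub, smul_sub, smul_comm (t m) ε]
  have e0' : ∀ (a b d : V n), t m • act (g m) (ε • a + (b - d)) =
      ε • (t m • act (g m) a) + (t m • act (g m) b - t m • act (g m) d) := by
    intro a b d
    rw [CC.act_add, CC.act_sub, CC.act_smul, smul_add, smul_sub, smul_comm (t m) ε]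
  have s1 : t m • act (g m) (∑ i, W m i) = ∑ i, t m • act (g m) (W m i) := by
    rw [CC.act_sum, Finset.smul_sum]
  have s2 : t m • act (g m) (∑ i, ((t m)⁻¹ * t m') • act ((g m)⁻¹ * g m') (W m' i)) =
      ∑ i, t m' • act (g m') (W m' i) := by
    rw [CC.act_sum, Finset.smul_sum]
    exact Finset.sum_congr rfl fun i _ => hact _
  refine ⟨?_, ?_, ?_, ?_⟩
  · rw [← hCC.sact_cl_iff (hgΓ m) (ht m), e0, hact, s1]; exact q1
  · rw [← hCC.sact_cl_iff (hgΓ m) (ht m), e0', hact, s1]; exact q2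
  · rw [← hCC.sact_cl_iff (hgΓ m) (ht m), e0, hact, s2]; exact q3
  · rw [← hCC.sact_cl_iff (hgΓ m) (ht m), e0', hact, s2]; exact q4

end Pool.Agent.NTW.H34
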