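import Pool.Agent.NTW.StmtsD

/-!
# Row NRC of the squad NTW (near tuples are near in all good directions)
-/

set_option autoImplicit false

open Matrix Filter Topology

namespace Pool.Agent.NTW.H34

open Pool.Agent.PFS Pool.Agent.PFJ Pool.Agent.NTS

variable {n K : ℕ}

theorem nrc_xt_add (w : Fin K → V n) (t : Fin K → ℝ) (a : ℝ) :
    xt w (fun i => t i + a) = Real.exp a • xt w t := by
  unfold xt
  rw [Finset.smul_sum]
  refine Finset.sum_congr rfl fun i _ => ?_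
  rw [smul_smul, Real.exp_add, mul_comm]

theorem nrc_nearS_smul {C : Set (V n)} (hC : PCone C) {M s : ℝ} (hs : 0 < s)
    {W : Submodule ℝ (V n)} {p : V n} (h : NearS C M W (s • p)) : NearS C M W p := by
  obtain ⟨q, hq, h1, h2⟩ := h
  refine ⟨s⁻¹ • q, W.smul_mem _ hq, ?_, ?_⟩
  · have := hC.cl_smul h1 (inv_pos.mpr hs).le
    rwa [smul_sub, smul_smul s⁻¹ s, inv_mul_cancel₀ hs.ne', one_smul] at this
  · have := hC.cl_smul h2 (inv_pos.mpr hs).le
    have e : s⁻¹ • (M • s • p - q) = M • p - s⁻¹ • q := by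
      rw [smul_sub, smul_comm M s p, smul_smul s⁻¹ s, inv_mul_cancel₀ hs.ne', one_smul]
    rwa [e] at this

theorem nrc_tn_mono {C : Set (V n)} (hC : PCone C) {ε ε' : ℝ} (h : ε ≤ ε') {w w' : Fin K → V n}
    (hw : ∑ m, w m ∈ closure C) (hw' : ∑ m, w' m ∈ closure C) (ht : TN C ε w w') :
    TN C ε' w w' := by
  intro i
  obtain ⟨q1, q2, q3, q4⟩ := ht i
  have a1 : (ε' - ε) • (∑ m, w m) ∈ closure C := hC.cl_smul hw (by linarith)
  have a2 : (ε' - ε) • (∑ m, w' m) ∈ closure C := hC.cl_smul hw' (by linarith)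
  refine ⟨?_, ?_, ?_, ?_⟩
  · have := hC.cl_add q1 a1
    have e : ε • (∑ m, w m) - (w i - w' i) + (ε' - ε) • (∑ m, w m) =
        ε' • (∑ m, w m) - (w i - w' i) := by rw [sub_smul]; abel
    rwa [e] at this
  · have := hC.cl_add q2 a1
    have e : ε • (∑ m, w m) + (w i - w' i) + (ε' - ε) • (∑ m, w m) =
        ε' • (∑ m, w m) + (w i - w' i) := by rw [sub_smul]; abel
    rwa [e] at this
  · have := hC.cl_add q3 a2
    have e : ε • (∑ m, w' m) - (w i - w' i) + (ε' - ε) • (∑ m, w' m) =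
        ε' • (∑ m, w' m) - (w i - w' i) := by rw [sub_smul]; abel
    rwa [e] at this
  · have := hC.cl_add q4 a2
    have e : ε • (∑ m, w' m) + (w i - w' i) + (ε' - ε) • (∑ m, w' m) =
        ε' • (∑ m, w' m) + (w i - w' i) := by rw [sub_smul]; abel
    rwa [e] at this

/-- **Row NRC** -/
theorem nrc (hCNE : CneStmt) (hBLW : BlwStmt) (hSLD : SldStmt) (hZPW : ZpwStmt)
    (hHSC : HscStmt) (hDCP : DcpStmt) : NrcStmt := by
  classical
  intro n C Γ K c τ hD hN
  have hCC : CC C Γ := hD.toCC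
  have hC : PCone C := hCC.toPCone
  have hK0 : (K : ℝ) ≠ 0 := by
    have := hD.three
    have h0 : K ≠ 0 := by omega
    exact_mod_cast h0
  obtain ⟨cne1, cne2, cne3, -⟩ := hCNE K c τ hD.toTau hD.sym
  by_contra hcon
  push Not at hcon
  have hε : ∀ m : ℕ, (0 : ℝ) < 1 / ((m : ℝ) + 9) ∧ 1 / ((m : ℝ) + 9) ≤ 1 / 8 := by
    intro m
    have hm : (0 : ℝ) ≤ (m : ℝ) := Nat.cast_nonneg m
    refine ⟨by positivity, ?_⟩
    exact one_div_le_one_div_of_le (by norm_num) (by linarith)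
  have hch : ∀ m : ℕ, ∃ (w w' : Fin K → V n) (b : Fin K → ℝ), TT C Γ c w ∧ TT C Γ c w' ∧
      TN C (1 / ((m : ℝ) + 9)) w w' ∧ Cne c τ b ∧ ¬ NearS C 2 (Ws C τ w') (xt w b) := by
    intro m
    obtain ⟨w, w', h1, h2, h3, b, h4, h5⟩ := hcon (1 / ((m : ℝ) + 9)) (hε m).1 (hε m).2
    exact ⟨w, w', b, h1, h2, h3, h4, h5⟩
  choose w w' b' hw hw' htn hb' hnb' using hch
  have hcl : ∀ m, ∑ i, w m i ∈ closure C := fun m => subset_closure (hw m).pes.1.sum_mem
  have hcl' : ∀ m, ∑ i, w' m i ∈ closure C := fun m => subset_closure (hw' m).pes.1.sum_mem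
  have hxtW : ∀ (m : ℕ) (t : Fin K → ℝ), xt (w' m) t ∈ Ws C τ (w' m) := by
    intro m t
    have hd := (hDCP n C Γ K c τ hD (w' m) (hw' m)).1
    exact Submodule.sum_mem _ fun i _ => Submodule.smul_mem _ _
      ((le_iSup (fun i => Lf C τ (w' m) i) i) (hd i))
  let B : ℕ → Set (Fin K → ℝ) := fun m => {t | ¬ NearS C 2 (Ws C τ (w' m)) (xt (w m) t)}
  have hBinv : ∀ m, ∀ t ∈ B m, ∀ a : ℝ, (fun i => t i + a) ∈ B m := by
    intro m t ht a hna
    apply ht
    rw [nrc_xt_add] at hna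
    exact nrc_nearS_smul hC (Real.exp_pos a) hna
  let b : ℕ → Fin K → ℝ := fun m i => b' m i + (-(∑ j, b' m j) / K)
  have hbB : ∀ m, b m ∈ B m := fun m => hBinv m (b' m) (hnb' m) _
  have hbC : ∀ m, Cne c τ (b m) := fun m => cne2 (b' m) _ (hb' m)
  have hb0 : ∀ m, ∑ i, b m i = 0 := by
    intro m
    change ∑ i, (b' m i + (-(∑ j, b' m j) / K)) = 0
    rw [Finset.sum_add_distrib, Finset.sum_const, Finset.card_univ, Fintype.card_fin,
      nsmul_eq_mul, mul_div_cancel₀ _ hK0]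
    ring
  have hfar : ∀ R : ℝ, ∀ᶠ m in atTop, ∀ t ∈ B m, ∃ i, R < |t i| := by
    intro R
    obtain ⟨ε, hε0, hblw⟩ := hBLW K R
    have hlim : Tendsto (fun m : ℕ => 1 / ((m : ℝ) + 1)) atTop (𝓝 0) :=
      tendsto_one_div_add_atTop_nhds_zero_nat
    filter_upwards [hlim.eventually (gt_mem_nhds hε0)] with m hm t ht
    by_contra hno
    push Not at hno
    apply ht
    have hm0 : (0 : ℝ) ≤ (m : ℝ) := Nat.cast_nonneg m
    have hle : 1 / ((m : ℝ) + 9) ≤ ε :=
      (one_div_le_one_div_of_le (by linarith) (by linarith)).trans hm.le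
    obtain ⟨r, hr, h1, h2⟩ := hblw n C hC (w m) (w' m) (fun i => (hw m).pes.1.cl i)
      (fun i => (hw' m).pes.1.cl i) (nrc_tn_mono hC hle (hcl m) (hcl' m) (htn m)) t hno
    exact ⟨r • xt (w' m) t, Submodule.smul_mem _ _ (hxtW m t), h1, h2⟩
  obtain ⟨φ, t, ν, a, ρ, hφ, htB, hν, hν0, ha, ha0, hρ, hlim, hνa, hfree⟩ :=
    hSLD K B b hBinv hfar hbB hb0
  have hνν : 0 < ∑ i, ν i * ν i := by
    obtain ⟨i, hi⟩ : ∃ i, ν i ≠ 0 := by
      by_contra hno
      push Not at hno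
      exact hν (funext hno)
    refine Finset.sum_pos' (fun i _ => mul_self_nonneg _) ⟨i, Finset.mem_univ i, ?_⟩
    exact mul_self_pos.mpr hi
  obtain ⟨N, hN'⟩ := eventually_atTop.mp (hfree ν hνν)
  have htn8 : ∀ m, TN C (1/8) (w m) (w' m) := fun m =>
    nrc_tn_mono hC (hε m).2 (hcl m) (hcl' m) (htn m)
  obtain ⟨ψ, v, v', M, hψ, hv, hv', hne, hz⟩ := hZPW n C Γ K c τ hD (fun m => w (φ (m + N)))
    (fun m => w' (φ (m + N))) (fun m => t (m + N)) ν (fun m => hw _) (fun m => hw' _)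
    (fun m => htn8 _)
    (fun m => by
      have := hN' (m + N) (Nat.le_add_left N m)
      exact not_not.mp this)
    (fun m => htB (m + N))
  have hsp : HSP C Γ c τ v v' ν M := by
    refine ⟨hv, hv', hne, hν, hν0, ?_⟩
    intro s hs
    refine hz s ?_
    have h1 : Tendsto (fun m => ψ m + N) atTop atTop :=
      tendsto_atTop_mono (fun m => Nat.le_add_right (ψ m) N) hψ.tendsto_atTop
    filter_upwards [h1.eventually (hfree s hs)] with m hm
    exact not_not.mp hm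
  obtain ⟨j, k, hleaf, hj, hk, hrest⟩ := hHSC n C Γ K c τ hD hN v v' ν M hsp
  have haC : Cne c τ a := cne1 (fun m => b (φ m)) ρ a (fun m => hbC _) hρ hlim
  have := cne3 a ν j k haC ha ha0 hleaf hj hk hrest
  linarith

end Pool.Agent.NTW.H34
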